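import Pool.Agent.H.MP_0deb22_lc.Z

namespace Pool.Agent.H.MP_0deb22_lc

open Nat Classical

noncomputable def ρ (k : ℕ) (x : List Bool) : List Bool → ZMod 2 :=
  fun y => if V (y ++ x) then T (vl 2 (y ++ x) + fib k) else 0

lemma ρ_pre {k : ℕ} {x x' : List Bool} (h : ρ k x = ρ k x') (b : List Bool) :
    ρ k (b ++ x) = ρ k (b ++ x') := by
  funext y
  have := congrFun h (y ++ b)
  simpa only [ρ, List.append_assoc] using this

lemma ρ_rep (k : ℕ) {A : List Bool} (hA : V A) : ρ k (blk u2 ++ A) = ρ k (blk u1 ++ A) := by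
  funext y
  have v : ∀ u, V (false :: false :: u ++ [false, false, false]) →
      (V (y ++ (blk u ++ A)) ↔ V y) := by
    intro u hu
    refine ⟨V_left, fun hy => ?_⟩
    have := V_app0 hy (V_app0 hu hA)
    simpa [blk] using this
  unfold ρ
  by_cases hy : V y
  · rw [if_pos ((v u2 (by decide)).2 hy), if_pos ((v u1 (by decide)).2 hy), rep hy hA]
  · rw [if_neg (fun h => hy ((v u2 (by decide)).1 h)), if_neg (fun h => hy ((v u1 (by decide)).1 h))]

lemma vl_zeros (s n : ℕ) : vl s (List.replicate n false) = 0 := by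
  induction n generalizing s with
  | zero => rfl
  | succ n ih => simp [List.replicate_succ, vl, ih]

lemma V_zeros (n : ℕ) : V (List.replicate n false) := by
  induction n with
  | zero => exact V_nil
  | succ n ih => exact V_false ih

lemma ρ_pad (k n : ℕ) (x : List Bool) : ρ k (x ++ false :: List.replicate n false) = ρ k x := by
  funext y
  unfold ρ
  rw [← List.append_assoc, vl_append, ← List.replicate_succ, vl_zeros, add_zero, List.replicate_succ]
  exact if_congr ⟨V_left, fun h => V_app0 h (V_zeros n)⟩ rfl rfl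

def gen : ℕ → List (List Bool)
  | 0 => [[]]
  | n + 1 => (gen n).map (false :: ·) ++ ((gen n).filter (fun w => hd w = false)).map (true :: ·)

lemma mem_gen {w : List Bool} (h : V w) : w ∈ gen w.length := by
  induction w with
  | nil => simp [gen]
  | cons e w ih =>
    rw [V_cons] at h
    have := ih h.2
    cases e
    · simp [gen, this]
    · have h1 : hd w = false := by simpa using h.1
      simp [gen, this, h1]

def B0 : List (List Bool) := (gen 15).filter (fun b => b.getLast? = some false && b != blk u2)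
def B1 : List (List Bool) := (gen 15).filter (fun b => b.getLast? = some true)
def h0 (L : List (List Bool)) : List (List Bool) := L.filter (fun w => hd w = false)

lemma lens : B0.length = 986 ∧ B1.length = 610 ∧ (h0 B0).length = 609 ∧ (h0 B1).length = 377 := by
  decide +kernel

def pr (B X : List (List Bool)) : List (List Bool) := B.flatMap fun b => X.map (b ++ ·)

lemma len_pr (B X : List (List Bool)) : (pr B X).length = B.length * X.length := by
  simp [pr, List.length_flatMap]

lemma mem_pr {B X : List (List Bool)} {b x : List Bool} (hb : b ∈ B) (hx : x ∈ X) :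
    b ++ x ∈ pr B X := List.mem_flatMap.2 ⟨b, hb, List.mem_map.2 ⟨x, hx, rfl⟩⟩

def TA : ℕ → List (List Bool) × List (List Bool)
  | 0 => ([[]], [[]])
  | j + 1 => (pr B0 (TA j).1 ++ pr B1 (TA j).2, pr (h0 B0) (TA j).1 ++ pr (h0 B1) (TA j).2)

lemma TA_len (j : ℕ) : ((TA j).1.length : ℝ) ≤ (1596 / 1597) ^ j * fib (15 * j + 2) ∧
    ((TA j).2.length : ℝ) ≤ (1596 / 1597) ^ j * fib (15 * j + 1) := by
  induction j with
  | zero => simp [TA]
  | succ j ih =>
    obtain ⟨a, b, c, d⟩ := lens
    have f1 : fib (15 * (j + 1) + 2) = 610 * fib (15 * j + 1) + 987 * fib (15 * j + 2) := by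
      rw [show 15 * (j + 1) + 2 = 15 + (15 * j + 1) + 1 by ring, fib_add]
      norm_num
    have f2 : fib (15 * (j + 1) + 1) = 377 * fib (15 * j + 1) + 610 * fib (15 * j + 2) := by
      rw [show 15 * (j + 1) + 1 = 14 + (15 * j + 1) + 1 by ring, fib_add]
      norm_num
    have m : (fib (15 * j + 1) : ℝ) ≤ fib (15 * j + 2) := by exact_mod_cast fib_mono (by omega)
    have p : (0 : ℝ) < (1596 / 1597) ^ j := by positivity
    have m' := mul_le_mul_of_nonneg_left m p.le
    have q : (0 : ℝ) ≤ (1596 / 1597) ^ j * fib (15 * j + 1) := by positivity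
    simp only [TA, List.length_append, len_pr, a, b, c, d, f1, f2, pow_succ]
    push_cast
    obtain ⟨i1, i2⟩ := ih
    generalize ((TA j).1.length : ℝ) = X at *
    generalize ((TA j).2.length : ℝ) = Y at *
    generalize (fib (15 * j + 1) : ℝ) = P at *
    generalize (fib (15 * j + 2) : ℝ) = Q at *
    generalize ((1596 / 1597 : ℝ)) ^ j = θ at *
    constructor <;> linarith

lemma canon (k j : ℕ) : ∀ (L R : List Bool), L.length = 15 * j → V (L ++ R) →
    ∃ L', L' ∈ (TA j).1 ∧ L'.length = 15 * j ∧ V (L' ++ R) ∧ ρ k (L' ++ R) = ρ k (L ++ R) ∧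
      (hd (L ++ R) = false → L' ∈ (TA j).2) ∧ hd (L' ++ R) = hd (L ++ R) := by
  induction j with
  | zero =>
    intro L R hL h
    obtain rfl : L = [] := List.length_eq_zero_iff.1 hL
    exact ⟨[], by simp [TA], rfl, h, rfl, fun _ => by simp [TA], rfl⟩
  | succ j ih =>
    intro L R hL h
    obtain ⟨b, L1, rfl, hb⟩ : ∃ b L1, L = b ++ L1 ∧ b.length = 15 :=
      ⟨L.take 15, L.drop 15, by simp, by simp; omega⟩
    rw [List.append_assoc] at h ⊢
    obtain ⟨L', a1, a2, a3, a4, a5, a6⟩ := ih L1 R (by simp at hL; omega) (V_right h)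
    have hbg : b ∈ gen 15 := hb ▸ mem_gen (V_left h)
    have hh : ∀ X, hd (b ++ X) = hd b := by
      intro X
      cases b with
      | nil => simp at hb
      | cons e b => rfl
    by_cases hu : b = blk u2
    · subst hu
      have m1 : blk u1 ∈ B0 := by decide +kernel
      have m2 : blk u1 ∈ h0 B0 := List.mem_filter.2 ⟨m1, by decide⟩
      refine ⟨blk u1 ++ L', List.mem_append_left _ (mem_pr m1 a1), by simp [a2, blk, u1]; ring, ?_, ?_,
        fun _ => List.mem_append_left _ (mem_pr m2 a1), rfl⟩
      · have := V_app0 (show V ([false, false, false] ++ u1 ++ [false, false, false]) by decide) a3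
        simpa [blk] using this
      · rw [List.append_assoc, ← ρ_rep k a3]
        exact ρ_pre a4 _
    · have v : V (b ++ (L' ++ R)) := V_app _ h a3 (by rw [a6]; exact id)
      obtain ⟨b', e, rfl⟩ : ∃ b' e, b = b' ++ [e] := by
        rcases List.eq_nil_or_concat b with rfl | ⟨b', e, rfl⟩
        · simp at hb
        · exact ⟨b', e, by simp⟩
      refine ⟨(b' ++ [e]) ++ L', ?_, by rw [List.length_append, hb, a2]; ring,
        by rw [List.append_assoc]; exact v, by rw [List.append_assoc]; exact ρ_pre a4 _, ?_,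
        by rw [List.append_assoc, hh, hh]⟩
      · cases e
        · exact List.mem_append_left _ (mem_pr (List.mem_filter.2 ⟨hbg, by simpa using hu⟩) a1)
        · have : hd (L1 ++ R) = false := by
            have := V_right (B := b') (C := true :: (L1 ++ R)) (by simpa using h)
            simpa using ((V_cons _ _).1 this).1
          exact List.mem_append_right _ (mem_pr (List.mem_filter.2 ⟨hbg, by simp⟩) (a5 this))
      · intro h1
        rw [hh] at h1
        cases e
        · exact List.mem_append_left _ (mem_pr (List.mem_filter.2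
            ⟨List.mem_filter.2 ⟨hbg, by simpa using hu⟩, by simpa using h1⟩) a1)
        · have : hd (L1 ++ R) = false := by
            have := V_right (B := b') (C := true :: (L1 ++ R)) (by simpa using h)
            simpa using ((V_cons _ _).1 this).1
          exact List.mem_append_right _ (mem_pr (List.mem_filter.2
            ⟨List.mem_filter.2 ⟨hbg, by simp⟩, by simpa using h1⟩) (a5 this))

noncomputable def G (k : ℕ) (L : List Bool) (a c : ZMod 2) : List Bool → ZMod 2 := fun y =>
  if V (y ++ L) then
    (if vl 2 (y ++ L) + fib k < fib (2 + (y ++ L).length) then a + T (vl 2 (y ++ L) + fib k)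
      else c + T (vl 2 (y ++ L) + fib k - fib (2 + (y ++ L).length))) else 0

lemma ρ_G {k : ℕ} {L A : List Bool} (hA : V A) (hk : k ≤ L.length + 1) :
    ∃ a c, ρ k (L ++ false :: A) = G k L a c := by
  obtain ⟨c, hc⟩ := trunc hA
  refine ⟨A.count true, c, funext fun y => ?_⟩
  unfold ρ G
  rw [← List.append_assoc]
  by_cases hy : V (y ++ L)
  · rw [if_pos (V_app0 hy hA), if_pos hy, hc _ k hy (by simp; omega)]
  · rw [if_neg (fun h => hy (V_left h)), if_neg hy]

noncomputable def QS (j : ℕ) : Finset (List Bool → ZMod 2) :=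
  ((TA j).1.toFinset ×ˢ (Finset.univ : Finset (Bool × ZMod 2 × ZMod 2))).image
    fun p => G (15 * j + 1) (if p.2.1 then p.1 ++ [true] else p.1) p.2.2.1 p.2.2.2

lemma QS_card (j : ℕ) : (QS j).card ≤ 8 * (TA j).1.length := by
  refine Finset.card_image_le.trans ?_
  rw [Finset.card_product, mul_comm]
  exact Nat.mul_le_mul (by simp) (List.toFinset_card_le _)

lemma mem_QS (j : ℕ) {x : List Bool} (h : V x) : ρ (15 * j + 1) x ∈ QS j := by
  rw [← ρ_pad _ (15 * j + 1) x]
  have v := V_app0 h (V_zeros (15 * j + 1))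
  have hl : 15 * j + 2 ≤ (x ++ false :: List.replicate (15 * j + 1) false).length := by simp
  generalize x ++ false :: List.replicate (15 * j + 1) false = w at *
  obtain ⟨L, R, rfl, hL⟩ : ∃ L R, w = L ++ R ∧ L.length = 15 * j :=
    ⟨w.take (15 * j), w.drop (15 * j), by simp, by simp; omega⟩
  obtain ⟨L', a1, a2, a3, a4, -, -⟩ := canon (15 * j + 1) j L R hL v
  rw [← a4]
  have vR := V_right a3
  rw [List.length_append] at hl
  rcases R with _ | ⟨e, _ | ⟨f, R⟩⟩
  · simp at hl; omega
  · simp at hl; omega
  · cases e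
    · obtain ⟨a, c, e⟩ := ρ_G (k := 15 * j + 1) (L := L') (V_tail vR) (by omega)
      exact Finset.mem_image.2 ⟨(L', false, a, c), by simp [a1], e.symm⟩
    · have hf : f = false := V_hd vR rfl
      subst hf
      obtain ⟨a, c, e⟩ := ρ_G (k := 15 * j + 1) (L := L' ++ [true]) (V_tail (V_tail vR))
        (by simp; omega)
      refine Finset.mem_image.2 ⟨(L', true, a, c), by simp [a1], ?_⟩
      rw [List.append_assoc] at e
      exact e.symm

theorem auto (j : ℕ) : ∃ n, n ≤ 8 * (TA j).1.length ∧
    ∃ (δ : Fin n → Bool → Option (Fin n)) (q0 : Fin n) (τ : Fin n → ℕ), ∀ x : List Bool,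
      V x.reverse → ∃ q, x.foldlM δ q0 = some q ∧
        τ q = (zeckendorf (vl 2 x.reverse + fib (15 * j + 1))).length % 2 := by
  let E := (QS j).equivFin
  let δ : Fin (QS j).card → Bool → Option (Fin (QS j).card) := fun q a =>
    if h : (fun y => (E.symm q).1 (y ++ [a])) ∈ QS j then some (E ⟨_, h⟩) else none
  refine ⟨_, QS_card j, δ, E ⟨_, mem_QS j V_nil⟩, fun q => ((E.symm q).1 []).val, fun x hx => ?_⟩
  have key : ∀ x : List Bool, ∀ hx : V x.reverse,
      x.foldlM δ (E ⟨_, mem_QS j V_nil⟩) = some (E ⟨_, mem_QS j hx⟩) := by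
    intro x
    induction x using List.reverseRecOn with
    | nil => intro _; rfl
    | append_singleton x a ih =>
      intro hx
      have hx' : V (a :: x.reverse) := by simpa using hx
      have e : (fun y => ρ (15 * j + 1) x.reverse (y ++ [a])) = ρ (15 * j + 1) (x ++ [a]).reverse := by
        funext y
        simp [ρ]
      rw [List.foldlM_append, ih (V_tail hx')]
      simp only [Option.bind_eq_bind, Option.bind_some, List.foldlM_cons, List.foldlM_nil, δ,
        Equiv.symm_apply_apply, e, dif_pos (mem_QS j hx)]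
      rfl
  refine ⟨_, key x hx, ?_⟩
  simp only [Equiv.symm_apply_apply, ρ, List.nil_append, if_pos hx, T, ZMod.val_natCast]

end Pool.Agent.H.MP_0deb22_lc
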