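import Mathlib

namespace Pool.Agent.H.MP_0deb22_lc

open Nat

def vl : ℕ → List Bool → ℕ
  | _, [] => 0
  | s, e :: w => (if e then fib s else 0) + vl (s + 1) w

def V (w : List Bool) : Prop := w.IsChain (fun a b => ¬ (a = true ∧ b = true))

instance (w : List Bool) : Decidable (V w) := by unfold V; infer_instance

def T (N : ℕ) : ZMod 2 := (zeckendorf N).length

def hd (w : List Bool) : Bool := w.headD false

lemma vl_eq (s : ℕ) (w : List Bool) : vl s w = (if hd w then fib s else 0) + vl (s + 1) w.tail := by
  cases w <;> simp [vl, hd]

lemma V_cons (e : Bool) (w : List Bool) : V (e :: w) ↔ ¬ (e = true ∧ hd w = true) ∧ V w := by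
  cases w <;> simp [V, hd]

lemma V_nil : V [] := by simp [V]

lemma V_tail {w : List Bool} (h : V w) : V w.tail := by
  cases w with
  | nil => exact h
  | cons e w => exact ((V_cons e w).1 h).2

lemma V_hd {w : List Bool} (h : V w) (h1 : hd w = true) : hd w.tail = false := by
  cases w with
  | nil => rfl
  | cons e w =>
    have := ((V_cons e w).1 h).1
    simp only [hd, List.headD_cons, List.tail_cons] at *
    simpa [h1] using this

lemma V_false {w : List Bool} (h : V w) : V (false :: w) := (V_cons _ _).2 ⟨by simp, h⟩

lemma V_tf {w : List Bool} (h : V w) : V (true :: false :: w) :=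
  (V_cons _ _).2 ⟨by simp [hd], V_false h⟩

lemma vl_append (s : ℕ) (B C : List Bool) : vl s (B ++ C) = vl s B + vl (s + B.length) C := by
  induction B generalizing s with
  | nil => simp [vl]
  | cons e B ih =>
    simp only [List.cons_append, vl, ih, List.length_cons]
    rw [show s + 1 + B.length = s + (B.length + 1) by ring, add_assoc]

lemma vl_rec (s : ℕ) (w : List Bool) : vl (s + 2) w = vl s w + vl (s + 1) w := by
  induction w generalizing s with
  | nil => simp [vl]
  | cons e w ih =>
    have h1 : vl (s + 2 + 1) w = vl (s + 1) w + vl (s + 1 + 1) w := ih (s + 1)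
    have f := fib_add_two (n := s)
    cases e <;> simp only [vl, h1, Bool.false_eq_true, if_false, if_true] <;> omega

lemma V_left {B C : List Bool} (h : V (B ++ C)) : V B := (List.isChain_append.1 h).1

lemma V_right {B C : List Bool} (h : V (B ++ C)) : V C := (List.isChain_append.1 h).2.1

lemma V_app {B C : List Bool} (D : List Bool) (h : V (B ++ C)) (hD : V D) (h1 : hd D = true → hd C = true) :
    V (B ++ D) := by
  induction B with
  | nil => exact hD
  | cons e B ih =>
    rw [List.cons_append, V_cons] at h ⊢
    refine ⟨?_, ih h.2⟩
    cases B with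
    | nil => exact fun hh => h.1 ⟨hh.1, h1 hh.2⟩
    | cons f B => exact h.1

lemma V_app0 {B D : List Bool} (h : V B) (hD : V D) : V (B ++ false :: D) :=
  V_app (C := []) _ (by simpa using h) (V_false hD) (by simp [hd])

lemma bound' {w : List Bool} (h : V w) : ∀ s L, L < fib (s + 1) → (hd w = true → L < fib s) →
    L + vl (s + 1) w < fib (s + 1 + w.length) := by
  induction w with
  | nil => intro s L h1 _; simpa [vl] using h1
  | cons e w ih =>
    intro s L h1 h2
    rw [V_cons] at h
    have f : fib (s + 1 + 1) = fib s + fib (s + 1) := fib_add_two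
    rw [List.length_cons, show s + 1 + (w.length + 1) = s + 1 + 1 + w.length by ring, vl, ← add_assoc]
    cases e
    · exact ih h.2 (s + 1) _ (by simp only [Bool.false_eq_true, if_false]; omega) (fun _ => by simpa using h1)
    · have := h2 rfl
      exact ih h.2 (s + 1) _ (by simp only [if_true]; omega) (fun hh => absurd ⟨rfl, hh⟩ h.1)

lemma bound {w : List Bool} (h : V w) : vl 2 w < fib (2 + w.length) := by
  simpa using bound' h 1 0 (by simp) (by simp)

def idx : ℕ → List Bool → List ℕ
  | _, [] => []
  | s, e :: w => if e then idx (s + 1) w ++ [s] else idx (s + 1) w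

lemma idx_spec {w : List Bool} (h : V w) : ∀ s, (∀ a ∈ idx s w, s ≤ a ∧ (hd w = false → s + 1 ≤ a)) ∧
    (idx s w).Pairwise (fun a b => b + 2 ≤ a) ∧ ((idx s w).map fib).sum = vl s w ∧
    (idx s w).length = w.count true := by
  induction w with
  | nil => intro s; simp [idx, vl]
  | cons e w ih =>
    intro s
    rw [V_cons] at h
    obtain ⟨h1, h2, h3, h4⟩ := ih h.2 (s + 1)
    cases e
    · simp only [idx, vl, Bool.false_eq_true, if_false, zero_add]
      exact ⟨fun a ha => by have := h1 a ha; omega, h2, h3, by simpa using h4⟩
    · have h5 : hd w = false := by simpa using h.1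
      simp only [idx, vl, if_true]
      refine ⟨fun a ha => ?_, ?_, by simp [h3, add_comm], by simpa using h4⟩
      · rcases List.mem_append.1 ha with ha | ha
        · have := h1 a ha; omega
        · simp only [List.mem_singleton] at ha
          simp [ha, hd]
      · rw [List.pairwise_append]
        refine ⟨h2, by simp, fun a ha b hb => ?_⟩
        simp only [List.mem_singleton] at hb
        have := (h1 a ha).2 h5
        omega

lemma cat {w : List Bool} (h : V w) {r L : ℕ} (hL : L < fib r) :
    T (vl (r + 1) w + L) = w.count true + T L := by
  obtain ⟨h1, h2, h3, h4⟩ := idx_spec h (r + 1)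
  have tr : Trans (fun a b : ℕ => b + 2 ≤ a) (fun a b : ℕ => b + 2 ≤ a) (fun a b : ℕ => b + 2 ≤ a) :=
    ⟨fun h1 h2 => by omega⟩
  have z := isZeckendorfRep_zeckendorf L
  have hr : 0 < r := by
    rcases r with _ | r
    · simp at hL
    · omega
  have z2 : (idx (r + 1) w ++ zeckendorf L).IsZeckendorfRep := by
    unfold List.IsZeckendorfRep at z ⊢
    rw [List.isChain_iff_pairwise] at z ⊢
    rw [List.append_assoc, List.pairwise_append]
    refine ⟨h2, z, fun a ha b hb => ?_⟩
    have := (h1 a ha).1
    rcases List.mem_append.1 hb with hb | hb
    · have h5 : fib b ≤ L := by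
        rw [← sum_zeckendorf_fib L]
        exact List.le_sum_of_mem (List.mem_map_of_mem hb)
      have : b < r := by
        by_contra hc
        have := fib_mono (not_lt.1 hc)
        omega
      omega
    · simp only [List.mem_singleton] at hb
      omega
  have z3 := zeckendorf_sum_fib z2
  rw [List.map_append, List.sum_append, h3, sum_zeckendorf_fib] at z3
  unfold T
  rw [z3, List.length_append, h4]
  push_cast
  rfl

lemma T_vl {w : List Bool} (h : V w) : T (vl 2 w) = w.count true := by
  simpa [T] using cat h (r := 1) (L := 0) (by simp)

lemma U : ∀ (n : ℕ) (w : List Bool), w.length ≤ n → V w →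
    ∃ w', V w' ∧ ∀ s, vl (s + 1) w + fib s = vl s w' := by
  intro n
  induction n with
  | zero =>
    intro w hw _
    obtain rfl : w = [] := List.length_eq_zero_iff.1 (by omega)
    exact ⟨[true], by decide, fun s => by simp [vl]⟩
  | succ n ih =>
    intro w hw h
    cases h0 : hd w
    · refine ⟨true :: false :: w.tail, V_tf (V_tail h), fun s => ?_⟩
      rw [vl_eq, h0]; simp [vl, add_comm]
    · obtain ⟨w', h1, h2⟩ := ih w.tail.tail (by simp; omega) (V_tail (V_tail h))
      refine ⟨false :: false :: w', V_false (V_false h1), fun s => ?_⟩
      have := h2 (s + 2)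
      have f := fib_add_two (n := s)
      rw [vl_eq, h0, vl_eq, V_hd h h0]
      simp only [vl, if_true, Bool.false_eq_true, if_false, add_assoc] at *
      norm_num at *
      omega

lemma U' {w : List Bool} (h : V w) : ∃ w', V w' ∧ ∀ s, vl (s + 1) w + fib s = vl s w' :=
  U _ w le_rfl h

lemma D1 {w : List Bool} (h : V w) : ∃ w', V w' ∧ ∀ s, vl (s + 1) w + fib (s + 2) = vl s w' := by
  have t1 := V_tail h
  have t2 := V_tail t1
  have t3 := V_tail t2
  have t4 := V_tail t3
  cases h1 : hd w.tail
  · cases h0 : hd w
    · obtain ⟨w', a, b⟩ := U' t2
      refine ⟨false :: false :: w', V_false (V_false a), fun s => ?_⟩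
      have := b (s + 2)
      rw [vl_eq, h0, vl_eq, h1]
      simp only [vl, if_true, Bool.false_eq_true, if_false, add_assoc] at *
      norm_num at *
      omega
    · cases h2 : hd w.tail.tail
      · obtain ⟨w', a, b⟩ := U' t3
        refine ⟨false :: false :: false :: w', V_false (V_false (V_false a)), fun s => ?_⟩
        have := b (s + 3)
        have f := fib_add_two (n := s + 1)
        rw [vl_eq, h0, vl_eq, h1, vl_eq, h2]
        simp only [vl, if_true, Bool.false_eq_true, if_false, add_assoc] at *
        norm_num at *
        omega
      · obtain ⟨w', a, b⟩ := U' t4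
        refine ⟨false :: true :: false :: false :: w', V_false (V_tf (V_false a)), fun s => ?_⟩
        have := b (s + 4)
        have f := fib_add_two (n := s + 1)
        have f2 := fib_add_two (n := s + 2)
        rw [vl_eq, h0, vl_eq, h1, vl_eq, h2, vl_eq, V_hd t2 h2]
        simp only [vl, if_true, Bool.false_eq_true, if_false, add_assoc] at *
        norm_num at *
        omega
  · have h0 : hd w = false := by
      by_contra hc
      rw [V_hd h (by simpa using hc)] at h1
      exact absurd h1 (by decide)
    obtain ⟨w', a, b⟩ := U' t3
    refine ⟨true :: false :: false :: w', V_tf (V_false a), fun s => ?_⟩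
    have := b (s + 3)
    have f := fib_add_two (n := s + 1)
    have f2 := fib_add_two (n := s)
    rw [vl_eq, h0, vl_eq, h1, vl_eq, V_hd t1 h1]
    simp only [vl, if_true, Bool.false_eq_true, if_false, add_assoc] at *
    norm_num at *
    omega

lemma D (p : ℕ) : ∀ {w : List Bool}, V w →
    ∃ w', V w' ∧ ∀ s, vl (s + 2) w + fib (s + 2 + p) = vl s w' := by
  induction p with
  | zero =>
    intro w h
    obtain ⟨w', a, b⟩ := D1 (V_false h)
    exact ⟨w', a, fun s => by simpa [vl] using b s⟩
  | succ p ih =>
    intro w h
    obtain ⟨w1, a, b⟩ := ih (V_tail h)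
    cases h0 : hd w
    · refine ⟨false :: w1, V_false a, fun s => ?_⟩
      have := b (s + 1)
      rw [vl_eq, h0, show s + 2 + (p + 1) = s + 1 + 2 + p by ring]
      simpa [vl] using this
    · obtain ⟨w', a', b'⟩ := D1 a
      refine ⟨w', a', fun s => ?_⟩
      rw [vl_eq, h0, show s + 2 + (p + 1) = s + 1 + 2 + p by ring, ← b', ← b (s + 1)]
      simp only [if_true, add_assoc]
      norm_num
      omega

def u1 : List Bool := [true, false, false, true, false, true, false, true]
def u2 : List Bool := [true, false, true, false, true, false, false, true]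
def blk (u : List Bool) : List Bool := [false, false, false] ++ u ++ [false, false, false, false]
def W1 : List (List Bool) := [[false,false,false,true,false,true,false,true,false,true,false,false,false], [true,false,false,true,false,true,false,true,false,true,false,false,false], [false,false,false,false,false,false,false,false,false,false,true,false,false], [false,false,true,false,false,false,false,false,false,false,true,false,false], [false,false,false,false,true,false,false,false,false,false,true,false,false], [false,false,true,false,false,true,false,false,false,false,true,false,false], [false,false,false,false,true,false,true,false,false,false,true,false,false], [false,false,true,false,false,true,false,true,false,false,true,false,false], [false,false,false,false,true,false,true,false,true,false,true,false,false], [false,false,true,false,false,true,false,true,false,false,false,true,false], [false,false,true,false,false,true,false,true,false,true,false,true,false], [false,false,true,false,false,true,false,true,false,true,false,false,true]]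
def W2 : List (List Bool) := [[false,false,false,false,false,false,false,true,false,true,false,false,false], [true,false,false,false,false,false,false,true,false,true,false,false,false], [false,false,true,false,false,false,false,true,false,true,false,false,false], [true,false,false,true,false,false,false,true,false,true,false,false,false], [false,false,true,false,true,false,false,true,false,true,false,false,false], [true,false,false,true,false,true,false,true,false,true,false,false,false], [false,false,true,false,true,false,false,false,false,false,true,false,false], [false,false,true,false,true,false,true,false,false,false,true,false,false], [false,false,true,false,true,false,false,false,true,false,true,false,false], [false,false,true,false,true,false,true,false,false,false,false,true,false], [false,false,true,false,true,false,true,false,false,true,false,true,false], [false,false,true,false,true,false,true,false,false,true,false,false,true]]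

lemma two_step (f g : ℕ → ℕ) (hf : ∀ s, f (s + 2) = f s + f (s + 1)) (hg : ∀ s, g (s + 2) = g s + g (s + 1))
    (h0 : f 0 = g 0) (h1 : f 1 = g 1) (s : ℕ) : f s = g s := by
  induction s using Nat.twoStepInduction with
  | zero => exact h0
  | one => exact h1
  | more s a b => rw [hf, hg, a, b]

lemma zone (u w : List Bool) (p : ℕ) (h0 : vl 0 (blk u) + fib (0 + p) = vl (0 + 1) w)
    (h1 : vl 1 (blk u) + fib (1 + p) = vl (1 + 1) w) (s : ℕ) :
    vl s (blk u) + fib (s + p) = vl (s + 1) w := by
  refine two_step (fun s => vl s (blk u) + fib (s + p)) (fun s => vl (s + 1) w) (fun s => ?_)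
    (fun s => vl_rec (s + 1) w) h0 h1 s
  have f := fib_add_two (n := s + p)
  simp only [vl_rec, show s + 2 + p = s + p + 2 by ring, show s + 1 + p = s + p + 1 by ring]
  omega

lemma table : ∀ i < 12, V (W1.getD i []) ∧ V (W2.getD i []) ∧ (W1.getD i []).length = 13 ∧
    (W2.getD i []).length = 13 ∧ (W1.getD i []).count true % 2 = (W2.getD i []).count true % 2 ∧
    vl 0 (blk u1) + fib (0 + (i + 2)) = vl (0 + 1) (W1.getD i []) ∧
    vl 1 (blk u1) + fib (1 + (i + 2)) = vl (1 + 1) (W1.getD i []) ∧
    vl 0 (blk u2) + fib (0 + (i + 2)) = vl (0 + 1) (W2.getD i []) ∧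
    vl 1 (blk u2) + fib (1 + (i + 2)) = vl (1 + 1) (W2.getD i []) := by decide +kernel

lemma rep {B A : List Bool} (hB : V B) (hA : V A) (k : ℕ) :
    T (vl 2 (B ++ (blk u1 ++ A)) + fib k) = T (vl 2 (B ++ (blk u2 ++ A)) + fib k) := by
  have b := bound hB
  set σ := 2 + B.length with hσ
  by_cases h1 : k ≤ σ + 1
  · have hL : vl 2 B + fib k < fib (σ + 2) := by
      have := fib_mono h1
      have f := fib_add_two (n := σ)
      omega
    have key : ∀ u, V (u ++ [false, false, false]) → T (vl 2 (B ++ (blk u ++ A)) + fib k) =
        (u.count true + A.count true : ℕ) + T (vl 2 B + fib k) := by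
      intro u hu
      have := cat (V_app0 hu hA) hL
      rw [vl_append, ← hσ]
      simp only [blk, List.append_assoc, List.cons_append, List.nil_append, vl, Bool.false_eq_true,
        if_false, zero_add] at this ⊢
      rw [show σ + 1 + 1 + 1 = σ + 2 + 1 by ring, add_comm (vl 2 B), add_assoc, this]
      simp
    rw [key u1 (by decide), key u2 (by decide)]
    rfl
  by_cases h2 : k ≤ σ + 13
  · obtain ⟨i, rfl⟩ : ∃ i, k = σ + (i + 2) := ⟨k - σ - 2, by omega⟩
    obtain ⟨a1, a2, a3, a4, a5, a6, a7, a8, a9⟩ := table i (by omega)
    have key : ∀ u w, u.length = 8 → V w → w.length = 13 →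
        vl σ (blk u) + fib (σ + (i + 2)) = vl (σ + 1) w →
        T (vl 2 (B ++ (blk u ++ A)) + fib (σ + (i + 2))) =
        (w.count true : ZMod 2) + (A.count true : ℕ) + T (vl 2 B) := by
      intro u w hu hw hl e
      have := cat (V_app0 hw hA) b
      have l2 : (blk u).length = 15 := by simp [blk, hu]
      rw [vl_append, hl] at this
      rw [vl_append, vl_append, ← hσ, l2]
      simp only [vl, Bool.false_eq_true, if_false, zero_add] at this
      rw [show vl 2 B + (vl σ (blk u) + vl (σ + 15) A) + fib (σ + (i + 2)) =
        vl (σ + 1) w + vl (σ + 1 + 13 + 1) A + vl 2 B by rw [← e]; ring_nf, this]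
      simp
    rw [key u1 _ rfl a1 a3 (zone _ _ _ a6 a7 σ), key u2 _ rfl a2 a4 (zone _ _ _ a8 a9 σ),
      (ZMod.natCast_eq_natCast_iff' _ _ 2).2 a5]
  · obtain ⟨p, rfl⟩ : ∃ p, k = σ + 12 + 2 + p := ⟨k - σ - 14, by omega⟩
    obtain ⟨w, a, e⟩ := D p (V_false hA)
    have key : ∀ u, u.length = 8 → V (false :: false :: u) →
        T (vl 2 (B ++ (blk u ++ A)) + fib (σ + 12 + 2 + p)) =
        (w.count true : ZMod 2) + (B.count true + u.count true : ℕ) := by
      intro u hu hv
      have v := V_app0 hB hv
      have b2 := bound v
      have l1 : 2 + (B ++ false :: false :: false :: u).length = σ + 11 := by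
        simp [hu, hσ]; ring
      rw [l1] at b2
      have := cat a b2
      rw [T_vl v, show σ + 11 + 1 = σ + 12 by ring, ← e (σ + 12)] at this
      have e2 : B ++ (blk u ++ A) = (B ++ false :: false :: false :: u) ++
          (false :: false :: false :: false :: A) := by simp [blk]
      rw [e2, vl_append, l1]
      simp only [vl, Bool.false_eq_true, if_false, zero_add] at this ⊢
      rw [add_comm (vl 2 _), add_right_comm]
      refine Eq.trans ?_ (this.trans (by simp))
      rfl
    rw [key u1 rfl (by decide), key u2 rfl (by decide)]
    rfl

lemma trunc {A : List Bool} (hA : V A) : ∃ c : ZMod 2, ∀ B k, V B → k ≤ B.length + 1 →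
    T (vl 2 (B ++ false :: A) + fib k) =
      if vl 2 B + fib k < fib (2 + B.length) then A.count true + T (vl 2 B + fib k)
      else c + T (vl 2 B + fib k - fib (2 + B.length)) := by
  obtain ⟨w, a, e⟩ := U' hA
  refine ⟨w.count true, fun B k hB hk => ?_⟩
  have b := bound hB
  rw [vl_append]
  simp only [vl, Bool.false_eq_true, if_false, zero_add]
  split_ifs with h
  · rw [← cat hA h]
    congr 1
    ring
  · have f := fib_add_two (n := B.length + 1)
    have m := fib_mono hk
    have := cat a (r := B.length + 1) (L := vl 2 B + fib k - fib (2 + B.length)) (by omega)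
    rw [← this, ← e]
    congr 1
    rw [show B.length + 1 + 1 = 2 + B.length by ring]
    omega

end Pool.Agent.H.MP_0deb22_lc
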